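import Pool.Agent.helper60.RF.SpecB

set_option autoImplicit false

/-!
# RF, block B, row POS: `n` is totally positive
-/

namespace Pool.Agent.RF

open NumberField

theorem POS_s5 : (√5 : ℝ) * √5 = 5 := Real.mul_self_sqrt (by norm_num)

theorem POS_va_mul (x y : OO) : va (x * y) = va x * va y := by
  unfold va
  rw [QuadraticAlgebra.re_mul, QuadraticAlgebra.im_mul]
  push_cast
  have h := POS_s5
  linear_combination (-((x.im : ℝ) * y.im / 4)) * h

theorem POS_vb_mul (x y : OO) : vb (x * y) = vb x * vb y := by
  unfold vb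
  rw [QuadraticAlgebra.re_mul, QuadraticAlgebra.im_mul]
  push_cast
  have h := POS_s5
  linear_combination (-((x.im : ℝ) * y.im / 4)) * h

theorem POS_va_add (x y : OO) : va (x + y) = va x + va y := by
  unfold va
  rw [QuadraticAlgebra.re_add, QuadraticAlgebra.im_add]
  push_cast
  ring

theorem POS_vb_add (x y : OO) : vb (x + y) = vb x + vb y := by
  unfold vb
  rw [QuadraticAlgebra.re_add, QuadraticAlgebra.im_add]
  push_cast
  ring

theorem POS_va_star (x : OO) : va (star x) = vb x := by
  unfold va vb
  rw [QuadraticAlgebra.re_star, QuadraticAlgebra.im_star]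
  push_cast
  ring

theorem POS_vb_star (x : OO) : vb (star x) = va x := by
  unfold va vb
  rw [QuadraticAlgebra.re_star, QuadraticAlgebra.im_star]
  push_cast
  ring

theorem POS_va_int (x : ℤ) : va (x : OO) = x ∧ vb (x : OO) = x := by
  unfold va vb
  rw [QuadraticAlgebra.re_intCast, QuadraticAlgebra.im_intCast]
  constructor <;> simp

theorem POS_va_25 : va (25 : OO) = 25 ∧ vb (25 : OO) = 25 := by
  unfold va vb
  rw [QuadraticAlgebra.re_ofNat, QuadraticAlgebra.im_ofNat]
  constructor <;> norm_num

theorem POS_norm (x : OO) : (x.norm : ℝ) = va x * vb x := by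
  unfold va vb
  rw [QuadraticAlgebra.norm_def]
  push_cast
  have h := POS_s5
  linear_combination (x.im : ℝ) ^ 2 / 4 * h

theorem POS_irr : Irrational (√5 : ℝ) := by
  have h := Nat.Prime.irrational_sqrt (p := 5) (by norm_num)
  simpa using h

theorem POS_ne (x : OO) (hx : x ≠ 0) : va x ≠ 0 ∧ vb x ≠ 0 := by
  have key : ∀ (a b : ℤ) (e : ℝ), e = 1 ∨ e = -1 → (a : ℝ) + b * ((1 + e * √5) / 2) = 0 → a = 0 ∧ b = 0 := by
    intro a b e he h
    by_cases hb : b = 0
    · subst hb
      rw [Int.cast_zero, zero_mul, add_zero] at h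
      exact ⟨by exact_mod_cast h, rfl⟩
    · exfalso
      apply POS_irr
      have hb' : (b : ℝ) ≠ 0 := Int.cast_ne_zero.mpr hb
      have he2 : e * e = 1 := by
        rcases he with rfl | rfl <;> norm_num
      rcases he with rfl | rfl
      · refine ⟨-(2 * a + b) / b, ?_⟩
        push_cast
        field_simp
        linarith
      · refine ⟨(2 * a + b) / b, ?_⟩
        push_cast
        field_simp
        linarith
  constructor
  · intro h
    apply hx
    have h1 := key x.re x.im 1 (Or.inl rfl) (by rw [one_mul]; exact h)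
    exact QuadraticAlgebra.ext h1.1 h1.2
  · intro h
    apply hx
    have h1 := key x.re x.im (-1) (Or.inr rfl) (by
      have e1 : (1 + -1 * √5 : ℝ) = 1 - √5 := by ring
      rw [e1]
      exact h)
    exact QuadraticAlgebra.ext h1.1 h1.2

theorem POS : POS_stmt := by
  intro p hp
  have h5 : (√5 : ℝ) < 3 := by
    rw [Real.sqrt_lt' (by norm_num)]
    norm_num
  have h50 : 0 < (√5 : ℝ) := Real.sqrt_pos.mpr (by norm_num)
  have hwa : 0 < va w2 := by
    unfold va w2
    push_cast
    linarith
  have hwb : 0 < vb w2 := by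
    unfold vb w2
    push_cast
    linarith
  have hD : (0 : ℝ) < p.D := by exact_mod_cast hp.D0
  obtain ⟨hka, hkb⟩ := POS_ne p.k hp.k0
  have e1 := hp.e1
  have ea := congrArg va e1
  have eb := congrArg vb e1
  simp only [POS_va_add, POS_va_mul, pow_two, POS_va_star, (POS_va_int p.D).1, POS_va_25.1] at ea
  simp only [POS_vb_add, POS_vb_mul, pow_two, POS_vb_star, (POS_va_int p.D).2, POS_va_25.2] at eb
  have ha2 : 0 < va p.k * va p.k := mul_self_pos.mpr hka
  have hb2 : 0 < vb p.k * vb p.k := mul_self_pos.mpr hkb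
  have hvb : 0 < vb p.n := by
    have h1 : 0 < va p.n * va p.n * vb p.n := by
      rw [← ea]
      have h2 : 0 < va w2 * (p.D : ℝ) * (25 * va p.k * (25 * va p.k)) := by
        have h3 : 25 * va p.k * (25 * va p.k) = 625 * (va p.k * va p.k) := by ring
        rw [h3]
        positivity
      have h4 := mul_self_nonneg (va p.X)
      linarith
    exact pos_of_mul_pos_right h1 (mul_self_nonneg _)
  have hva : 0 < va p.n := by
    have h1 : 0 < vb p.n * vb p.n * va p.n := by
      rw [← eb]
      have h2 : 0 < vb w2 * (p.D : ℝ) * (25 * vb p.k * (25 * vb p.k)) := by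
        have h3 : 25 * vb p.k * (25 * vb p.k) = 625 * (vb p.k * vb p.k) := by ring
        rw [h3]
        positivity
      have h4 := mul_self_nonneg (vb p.X)
      linarith
    exact pos_of_mul_pos_right h1 (mul_self_nonneg _)
  have hn := POS_norm p.n
  refine ⟨hva, hvb, ?_, hn⟩
  have h1 : (0 : ℝ) < (p.n.norm : ℝ) := by
    rw [hn]
    exact mul_pos hva hvb
  exact_mod_cast h1

end Pool.Agent.RF
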