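import Pool.Agent.helper13.RF.SpecT

set_option autoImplicit false

/-!
# RF, row TLR: the relations at every prime
-/

namespace Pool.Agent.RF

open NumberField

/-- `X ≡ 1 mod 25` is not zero -/
lemma TLR_ne {X : OO} (h : (25 : OO) ∣ X - 1) : 2 * X ≠ 0 ∧ 2 * star X ≠ 0 := by
  obtain ⟨c, hc⟩ := h
  have hX : X = 1 + 25 * c := by rw [← hc]; ring
  have e1 : (1 : OO).re = 1 := rfl
  have e2 : (25 : OO).re = 25 := rfl
  have e3 : (25 : OO).im = 0 := rfl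
  have e4 : (2 : OO).re = 2 := rfl
  have e5 : (2 : OO).im = 0 := rfl
  have hre : X.re = 1 + 25 * c.re := by
    rw [hX]
    simp [e1, e2, e3]
  have h1 : 2 * X ≠ 0 := by
    intro h0
    have h2 : 2 * X.re = 0 := by
      have := congrArg QuadraticAlgebra.re h0
      simpa [e4, e5] using this
    omega
  refine ⟨h1, fun h0 => h1 ?_⟩
  have h2 := congrArg star h0
  rw [star_mul, star_star, star_zero] at h2
  have h3 : star (2 : OO) = 2 := by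
    have : (2 : OO) = ((2 : ℕ) : OO) := by norm_num
    rw [this, star_natCast]
  rw [h3, mul_comm] at h2
  exact h2

theorem TLR (h1 : TID_stmt) (h2 : VVM_stmt) (h3 : TVA_stmt) : TLR_stmt := by
  intro D₀ F _ _ C p f hp hD P hP hP0 x0 x1 x2 x3 y0 y1 hx0 hx1 hx2 hx3 hy0 hy1
  subst hx0 hx1 hx2 hx3 hy0 hy1
  obtain ⟨hT1, hT2, hT3, hθ, hσ4⟩ := h1 D₀ F C p f hp hD
  obtain ⟨hV1, hV2, hV3⟩ := h2 F P hP hP0
  obtain ⟨-, hW, -⟩ := h3 F P hP hP0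
  set t := th C f p with ht
  have hinj : Function.Injective C.σ := C.σ.injective
  have hσ0 : ∀ x : 𝓞 F, x ≠ 0 → C.σ x ≠ 0 := fun x hx h => hx (by
    rw [← map_zero C.σ] at h
    exact hinj h)
  have ht1 : C.σ t ≠ 0 := hσ0 _ hθ
  have ht2 : C.σ (C.σ t) ≠ 0 := hσ0 _ ht1
  have ht3 : C.σ (C.σ (C.σ t)) ≠ 0 := hσ0 _ ht2
  have hss : star (star p.n) = p.n := star_star p.n
  -- nonzero
  have hnn : C.ι (p.n ^ 2 * star p.n) ≠ 0 := by
    rw [← hT1]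
    exact mul_ne_zero hθ ht2
  have hn0 : C.ι p.n ≠ 0 := by
    intro h
    apply hnn
    rw [map_mul, map_pow, h]
    simp
  have hn1 : C.ι (star p.n) ≠ 0 := by
    intro h
    apply hnn
    rw [map_mul, h, mul_zero]
  -- relation 1
  have hR1 : vv P t + vv P (C.σ (C.σ t)) = 2 * vv P (C.ι p.n) + vv P (C.ι (star p.n)) := by
    rw [← hV1 _ _ hθ ht2, hT1, map_mul, map_pow, pow_two,
      hV1 _ _ (mul_ne_zero hn0 hn0) hn1, hV1 _ _ hn0 hn0]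
    ring
  have hT1' : C.σ t * C.σ (C.σ (C.σ t)) = C.ι (star p.n ^ 2 * p.n) := by
    rw [← map_mul, hT1, C.σι, star_mul, star_pow, hss, mul_comm]
  have hR2 : vv P (C.σ t) + vv P (C.σ (C.σ (C.σ t))) =
      2 * vv P (C.ι (star p.n)) + vv P (C.ι p.n) := by
    rw [← hV1 _ _ ht1 ht3, hT1', map_mul, map_pow, pow_two,
      hV1 _ _ (mul_ne_zero hn1 hn1) hn0, hV1 _ _ hn1 hn1]
    ring
  -- divisibility
  have hD0 := hT2
  have hD1 : C.ι (star p.n) ∣ C.σ t * t := by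
    have := map_dvd C.σ hT2
    rwa [C.σι, map_mul, hσ4] at this
  have hD2 : C.ι p.n ∣ C.σ (C.σ t) * C.σ t := by
    have := map_dvd C.σ hD1
    rwa [C.σι, map_mul, hss] at this
  have hD3 : C.ι (star p.n) ∣ C.σ (C.σ (C.σ t)) * C.σ (C.σ t) := by
    have := map_dvd C.σ hD2
    rwa [C.σι, map_mul] at this
  have hR3 : vv P (C.ι p.n) ≤ vv P t + vv P (C.σ (C.σ (C.σ t))) := by
    rw [← hV1 _ _ hθ ht3]
    exact hV3 _ _ (mul_ne_zero hθ ht3) hD0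
  have hR4 : vv P (C.ι (star p.n)) ≤ vv P (C.σ t) + vv P t := by
    rw [← hV1 _ _ ht1 hθ]
    exact hV3 _ _ (mul_ne_zero ht1 hθ) hD1
  have hR5 : vv P (C.ι p.n) ≤ vv P (C.σ (C.σ t)) + vv P (C.σ t) := by
    rw [← hV1 _ _ ht2 ht1]
    exact hV3 _ _ (mul_ne_zero ht2 ht1) hD2
  have hR6 : vv P (C.ι (star p.n)) ≤ vv P (C.σ (C.σ (C.σ t))) + vv P (C.σ (C.σ t)) := by
    rw [← hV1 _ _ ht3 ht2]
    exact hV3 _ _ (mul_ne_zero ht3 ht2) hD3
  -- the sums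
  obtain ⟨hX, hX'⟩ := TLR_ne hp.X1
  have hι : ∀ z : OO, z ≠ 0 → C.ι z ≠ 0 := by
    intro z hz h
    exact hz (C.ind z 0 (by rw [h, map_zero, zero_mul, add_zero])).1
  have hT3' : C.σ t + C.σ (C.σ (C.σ t)) = C.ι (2 * star p.X) := by
    rw [← map_add, hT3, C.σι]
    congr 1
    rw [star_mul, mul_comm]
    rfl
  have hS1 : min (vv P t) (vv P (C.σ (C.σ t))) ≤ vv P (C.ι (2 * p.X)) := by
    rw [← hT3]
    refine hW _ _ hθ ht2 ?_
    rw [hT3]; exact hι _ hX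
  have hS2 : min (vv P (C.σ t)) (vv P (C.σ (C.σ (C.σ t)))) ≤ vv P (C.ι (2 * star p.X)) := by
    rw [← hT3']
    refine hW _ _ ht1 ht3 ?_
    rw [hT3']; exact hι _ hX'
  exact ⟨hR1, hR2, hR3, hR4, hR5, hR6, hS1, hS2, hι _ hX, hι _ hX'⟩

end Pool.Agent.RF
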